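import Pool.Agent.Lib.MP_cec001_ag.All
import Pool.Agent.Lib.MP_cec001_ag.Wrap

set_option autoImplicit false

namespace Pool.Agent.Results.MP_cec001_ag.GorensteinCodimFour

open Pool.Agent.Lib.CEC001

/-- Graded Artinian Gorenstein quotients of a polynomial ring in four variables over any field
have unimodal Hilbert function. -/
theorem result (k : Type*) [Field k] (I : Ideal (MvPolynomial (Fin 4) k)) (hI : Gor I) :
    ¬ ∃ a b c : ℕ, a < b ∧ b < c ∧ hilb I b < hilb I a ∧ hilb I b < hilb I c :=
  MPcec.unimodal_of_main MPcec.main k I hI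

end Pool.Agent.Results.MP_cec001_ag.GorensteinCodimFour
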